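import Pool.Agent.J6H68.Nut.Stm

/-!
# Module SW2: the switching argument when the kernel modulo 2 is a plane
-/

set_option autoImplicit false
set_option linter.unusedSectionVars false

namespace Pool.Agent.J6H50.Nut

open Finset Pool.Agent.TH296.Nut Pool.Agent.J6H28.Nut

variable {V : Type} [Fintype V] [DecidableEq V]

theorem no_two2 (S B : V → V → ℤ) (hBS : ∀ i j, (B i j : ZMod 2) = S i j)
    (hBs : ∀ i j, B i j = B j i)
    (z : V → ZMod 2)
    (hz : ∀ v : V → ZMod 2, (∀ i, ∑ j, (S i j : ZMod 2) * v j = 0) →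
      v = 0 ∨ (v = fun _ => 1) ∨ v = z ∨ v = fun i => z i + 1)
    (A B' C D : V) (hAD : z A + z D = 1) (hBC : z B' + z C = 1)
    (x0 : V → ZMod 2) (hx0 : ∀ i, ∑ j, (S i j : ZMod 2) * x0 j =
      ((ind A i + ind B' i + ind C i + ind D i : ℤ) : ZMod 2))
    (hx : x0 A + x0 B' + x0 C + x0 D = 0)
    (y : V → ℤ) (hy : ∀ i, ∑ j, B i j * y j = 0) (hyz : ∀ i, (y i : ZMod 2) = z i)
    (y' : V → ℤ) (hy' : ∀ i, ∑ j, (B i j + 2 * sw A B' C D i j) * y' j = 0)
    (hyz' : ∀ i, (y' i : ZMod 2) = z i) : False := by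
  -- w
  have hw : ∃ w : V → ℤ, ∀ i, y' i = y i + 2 * w i := by
    have : ∀ i, ∃ c : ℤ, y' i = y i + 2 * c := by
      intro i
      have h1 : ((y' i - y i : ℤ) : ZMod 2) = 0 := by
        push_cast
        rw [hyz, hyz', sub_self]
      obtain ⟨c, hc⟩ := (ZMod.intCast_zmod_eq_zero_iff_dvd (y' i - y i) 2).1 h1
      exact ⟨c, by push_cast at hc; linarith⟩
    choose w hw using this
    exact ⟨w, hw⟩
  obtain ⟨w, hw⟩ := hw
  have h1 : ∀ i, ∑ j, B i j * y' j =
      -2 * ((ind A i - ind D i) * (y' B' - y' C) + (ind B' i - ind C i) * (y' A - y' D)) := by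
    intro i
    have h2 := hy' i
    have h3 : ∑ j, (B i j + 2 * sw A B' C D i j) * y' j =
        ∑ j, B i j * y' j + 2 * ∑ j, sw A B' C D i j * y' j := by
      rw [Finset.mul_sum, ← Finset.sum_add_distrib]
      refine Finset.sum_congr rfl fun j _ => ?_
      ring
    rw [h3, sum_sw] at h2
    linarith
  -- dot product with y
  have h2 : ∑ i, y i * ∑ j, B i j * y' j = 0 := by
    have e1 : ∑ i, y i * ∑ j, B i j * y' j = ∑ j, y' j * ∑ i, B j i * y i := by
      simp only [Finset.mul_sum]
      rw [Finset.sum_comm]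
      refine Finset.sum_congr rfl fun j _ => Finset.sum_congr rfl fun i _ => ?_
      rw [hBs i j]
      ring
    rw [e1]
    refine Finset.sum_eq_zero fun j _ => ?_
    rw [hy j, mul_zero]
  have h3 : (y A - y D) * (y' B' - y' C) + (y B' - y C) * (y' A - y' D) = 0 := by
    have e1 : ∀ i, y i * ∑ j, B i j * y' j =
        -2 * ((y' B' - y' C) * (ind A i * y i) - (y' B' - y' C) * (ind D i * y i) +
          ((y' A - y' D) * (ind B' i * y i) - (y' A - y' D) * (ind C i * y i))) := by
      intro i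
      rw [h1 i]
      ring
    rw [Finset.sum_congr rfl fun i _ => e1 i, ← Finset.mul_sum, Finset.sum_add_distrib,
      Finset.sum_sub_distrib, Finset.sum_sub_distrib, ← Finset.mul_sum, ← Finset.mul_sum,
      ← Finset.mul_sum, ← Finset.mul_sum, sum_ind, sum_ind, sum_ind, sum_ind] at h2
    linarith
  -- B w
  have h4 : ∀ i, ∑ j, B i j * w j =
      -((ind A i - ind D i) * (y' B' - y' C) + (ind B' i - ind C i) * (y' A - y' D)) := by
    intro i
    have e1 : ∑ j, B i j * y' j = ∑ j, B i j * y j + 2 * ∑ j, B i j * w j := by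
      rw [Finset.mul_sum, ← Finset.sum_add_distrib]
      refine Finset.sum_congr rfl fun j _ => ?_
      rw [hw j]
      ring
    rw [h1 i, hy i] at e1
    linarith
  -- parities
  have p1 : ((y A - y D : ℤ) : ZMod 2) = 1 := by
    push_cast
    rw [hyz, hyz, sub_eq_add_neg, ZMod.neg_eq_self_mod_two, hAD]
  have p2 : ((y B' - y C : ℤ) : ZMod 2) = 1 := by
    push_cast
    rw [hyz, hyz, sub_eq_add_neg, ZMod.neg_eq_self_mod_two, hBC]
  have p1' : ((y' A - y' D : ℤ) : ZMod 2) = 1 := by
    push_cast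
    rw [hyz', hyz', sub_eq_add_neg, ZMod.neg_eq_self_mod_two, hAD]
  have p2' : ((y' B' - y' C : ℤ) : ZMod 2) = 1 := by
    push_cast
    rw [hyz', hyz', sub_eq_add_neg, ZMod.neg_eq_self_mod_two, hBC]
  have h5 : (y A - y D) * (y B' - y C) + (y A - y D) * (w B' - w C) +
      (y B' - y C) * (w A - w D) = 0 := by
    have e := h3
    rw [hw A, hw B', hw C, hw D] at e
    nlinarith [e]
  have h6 : ((w A : ZMod 2) + w B' + w C + w D) = 1 := by
    have e : (((y A - y D) * (y B' - y C) + (y A - y D) * (w B' - w C) +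
      (y B' - y C) * (w A - w D) : ℤ) : ZMod 2) = 0 := by rw [h5]; simp
    rw [Int.cast_add, Int.cast_add, Int.cast_mul, Int.cast_mul, Int.cast_mul, p1, p2] at e
    push_cast at e
    simp only [sub_eq_add_neg, ZMod.neg_eq_self_mod_two, one_mul] at e
    have e2 : (w A : ZMod 2) + w B' + w C + w D =
        (1 + (w B' + w C) + (w A + w D)) + 1 - 2 := by ring
    rw [e2, e]
    decide
  have h7 : ∀ i, ∑ j, (S i j : ZMod 2) * (w j : ZMod 2) =
      ((ind A i + ind B' i + ind C i + ind D i : ℤ) : ZMod 2) := by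
    intro i
    have e : ((∑ j, B i j * w j : ℤ) : ZMod 2) =
      ((-((ind A i - ind D i) * (y' B' - y' C) + (ind B' i - ind C i) * (y' A - y' D)) : ℤ) :
        ZMod 2) := by rw [h4 i]
    rw [Int.cast_neg, Int.cast_add, Int.cast_mul, Int.cast_mul, p1', p2'] at e
    push_cast at e
    simp only [sub_eq_add_neg, ZMod.neg_eq_self_mod_two, mul_one] at e
    push_cast
    simp only [hBS] at e
    rw [e]
    ring
  -- difference
  have h8 : ∀ i, ∑ j, (S i j : ZMod 2) * ((w j : ZMod 2) + x0 j) = 0 := by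
    intro i
    have e : ∑ j, (S i j : ZMod 2) * ((w j : ZMod 2) + x0 j) =
      ∑ j, (S i j : ZMod 2) * (w j : ZMod 2) + ∑ j, (S i j : ZMod 2) * x0 j := by
      rw [← Finset.sum_add_distrib]
      refine Finset.sum_congr rfl fun j _ => ?_
      ring
    rw [e, h7, hx0, ← two_mul]
    have : (2 : ZMod 2) = 0 := by decide
    rw [this, zero_mul]
  have h9 : (w A : ZMod 2) + w B' + w C + w D + (x0 A + x0 B' + x0 C + x0 D) = 0 := by
    have t2 : (2 : ZMod 2) = 0 := by decide
    rcases hz _ h8 with h | h | h | h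
    · have a1 := congrFun h A
      have a2 := congrFun h B'
      have a3 := congrFun h C
      have a4 := congrFun h D
      simp only [Pi.zero_apply] at a1 a2 a3 a4
      linear_combination a1 + a2 + a3 + a4
    · have a1 := congrFun h A
      have a2 := congrFun h B'
      have a3 := congrFun h C
      have a4 := congrFun h D
      linear_combination a1 + a2 + a3 + a4 + 2 * t2
    · have a1 := congrFun h A
      have a2 := congrFun h B'
      have a3 := congrFun h C
      have a4 := congrFun h D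
      linear_combination a1 + a2 + a3 + a4 + hAD + hBC + t2
    · have a1 := congrFun h A
      have a2 := congrFun h B'
      have a3 := congrFun h C
      have a4 := congrFun h D
      linear_combination a1 + a2 + a3 + a4 + hAD + hBC + 3 * t2
  rw [hx, add_zero, h6] at h9
  exact one_ne_zero h9


/-- a singular matrix with constant row sums has an integer kernel vector which is `z` modulo 2 -/
theorem z_vec (S B : V → V → ℤ) (ρ : ℕ) (z : V → ZMod 2)
    (hBS : ∀ i j, (B i j : ZMod 2) = S i j) (hBs : ∀ i j, B i j = B j i)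
    (hc : Fintype.card V % 2 = 1) (hρ : 0 < ρ) (hrow : ∀ i, ∑ j, B i j = (ρ : ℤ))
    (hK : Pool.Agent.J6H68.Nut.Ker2 S z)
    (s : V → ℝ) (hs : ∀ i, ∑ j, (B i j : ℝ) * s j = 0) (i0 : V) (hi0 : s i0 ≠ 0) :
    ∃ y : V → ℤ, (∀ i, ∑ j, B i j * y j = 0) ∧ ∀ i, (y i : ZMod 2) = z i := by
  by_contra hcon
  push Not at hcon
  apply hi0
  refine Pool.Agent.TH417.Nut.real_zero (R := V) (J := V) B ?_ s hs i0
  intro v hv x
  have h1 : ∀ i, ∑ j, (S i j : ZMod 2) * (v j : ZMod 2) = 0 := by
    intro i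
    have h2 : ((∑ j, B i j * v j : ℤ) : ZMod 2) = 0 := by rw [hv i]; simp
    push_cast at h2
    rw [← h2]
    refine Finset.sum_congr rfl fun j _ => ?_
    rw [hBS]
  have hsum : ∑ j, v j = 0 := by
    have h2 : ∑ i, ∑ j, B i j * v j = 0 := Finset.sum_eq_zero fun i _ => hv i
    rw [Finset.sum_comm] at h2
    have h3 : ∀ j, ∑ i, B i j * v j = (ρ : ℤ) * v j := by
      intro j
      rw [← Finset.sum_mul, ← hrow j]
      congr 1
      exact Finset.sum_congr rfl fun i _ => hBs i j
    rw [Finset.sum_congr rfl fun j _ => h3 j, ← Finset.mul_sum] at h2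
    rcases mul_eq_zero.1 h2 with h | h
    · exfalso
      have : (ρ : ℤ) ≠ 0 := by exact_mod_cast hρ.ne'
      exact this h
    · exact h
  have hsum2 : ∑ j, (v j : ZMod 2) = 0 := by
    have : ((∑ j, v j : ℤ) : ZMod 2) = 0 := by rw [hsum]; simp
    push_cast at this
    exact this
  have hcard : ((Fintype.card V : ℕ) : ZMod 2) = 1 := by
    have : ((Fintype.card V : ℕ) : ZMod 2) = ((Fintype.card V % 2 : ℕ) : ZMod 2) := by
      rw [ZMod.natCast_mod]
    rw [this, hc]; rfl
  refine (ZMod.intCast_zmod_eq_zero_iff_dvd (v x) 2).1 ?_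
  rcases hK.1 (fun j => (v j : ZMod 2)) h1 with h | h | h | h
  · exact congrFun h x
  · exfalso
    have e : ∑ j : V, (v j : ZMod 2) = 1 := by
      rw [Finset.sum_congr rfl fun j _ => congrFun h j]
      simp [hcard]
    rw [hsum2] at e
    exact absurd e (by decide)
  · obtain ⟨i, hi⟩ := hcon v hv
    exact absurd (congrFun h i) hi
  · exfalso
    have e : ∑ j : V, (v j : ZMod 2) = 1 := by
      rw [Finset.sum_congr rfl fun j _ => congrFun h j, Finset.sum_add_distrib, hK.2]
      simp [hcard]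
    rw [hsum2] at e
    exact absurd e (by decide)

theorem st_sw2 : Pool.Agent.J6H68.Nut.StSw2 := by
  intro V _ _ S B ρ z x0 A B' C D hBS hBs hc hρ hrow hK hx0 hx hAD hBC
  by_contra hcon
  push Not at hcon
  obtain ⟨⟨s, hs, i0, hi0⟩, s', hs', i0', hi0'⟩ := hcon
  obtain ⟨y, hy, hyz⟩ := z_vec S B ρ z hBS hBs hc hρ hrow hK s hs i0 hi0
  have hsw : ∀ i, ∑ j, sw A B' C D i j = 0 := by
    intro i
    have := sum_sw A B' C D (fun _ => 1) i
    simpa using this
  have h2 : (2 : ZMod 2) = 0 := by decide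
  obtain ⟨y', hy', hyz'⟩ := z_vec S (fun i j => B i j + 2 * sw A B' C D i j) ρ z
    (by
      intro i j
      push_cast
      rw [h2, zero_mul, add_zero, hBS])
    (by
      intro i j
      have e : sw A B' C D i j = sw A B' C D j i := by
        unfold sw; ring
      simp only [hBs i j, e])
    hc hρ
    (by
      intro i
      rw [Finset.sum_add_distrib, ← Finset.mul_sum, hsw i, hrow i]
      ring)
    hK s' hs' i0' hi0'
  exact no_two2 S B hBS hBs z hK.1 A B' C D hAD hBC x0 hx0 hx y hy hyz y' hy' hyz'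

end Pool.Agent.J6H50.Nut
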